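import Pool.Agent.Helper42.TN.GoalsA

/-!
# Project TN (MP_a41896_nt), packet TN-HYPR: the recursion on the hypersurface
-/

set_option autoImplicit false

open MvPolynomial

namespace Pool.Agent.Helper4.TN

open Pool.Agent.Helper29.BL Pool.Agent.Helper92.Ru
open Pool.Agent.Helper68.VN (box)
open Pool.Agent.Helper42.TN

noncomputable section

section poly

variable {K : Type} [Field K] {σ : Type}

lemma deg_shift [Fintype σ] (ξ : σ → K) (g : MvPolynomial σ K) (i : σ) :
    degreeOf i (shiftP ξ g) ≤ degreeOf i g := by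
  classical
  have h0 : shiftP ξ g = ∑ s ∈ g.support, C (coeff s g) * ∏ i, (X i + C (ξ i)) ^ s i := by
    unfold shiftP
    rw [aeval_def, eval₂_eq', MvPolynomial.algebraMap_eq]
  rw [h0]
  refine (degreeOf_sum_le i _ _).trans (Finset.sup_le fun s hs => ?_)
  have h1 : ∀ j : σ, degreeOf i ((X j + C (ξ j) : MvPolynomial σ K) ^ s j) ≤
      if i = j then s j else 0 := by
    intro j
    refine (degreeOf_pow_le i _ _).trans ?_
    have h2 : degreeOf i (X j + C (ξ j) : MvPolynomial σ K) ≤ if i = j then 1 else 0 := by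
      refine (degreeOf_add_le i _ _).trans ?_
      rw [degreeOf_X, degreeOf_C]
      split_ifs <;> simp
    calc s j * degreeOf i (X j + C (ξ j) : MvPolynomial σ K)
        ≤ s j * (if i = j then 1 else 0) := Nat.mul_le_mul_left _ h2
      _ = if i = j then s j else 0 := by split_ifs <;> simp
  calc degreeOf i (C (coeff s g) * ∏ j, (X j + C (ξ j) : MvPolynomial σ K) ^ s j)
      ≤ degreeOf i (C (coeff s g)) + degreeOf i (∏ j, (X j + C (ξ j) : MvPolynomial σ K) ^ s j) :=
        degreeOf_mul_le _ _ _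
    _ ≤ 0 + ∑ j, degreeOf i ((X j + C (ξ j) : MvPolynomial σ K) ^ s j) := by
        rw [degreeOf_C]
        exact Nat.add_le_add_left (degreeOf_prod_le _ _ _) _
    _ ≤ 0 + ∑ j, (if i = j then s j else 0) :=
        Nat.add_le_add_left (Finset.sum_le_sum fun j _ => h1 j) _
    _ = s i := by simp
    _ ≤ degreeOf i g := monomial_le_degreeOf i hs

lemma coeff_zero_shift (ξ : σ → K) (g : MvPolynomial σ K) :
    coeff 0 (shiftP ξ g) = eval ξ g := by
  have h1 : constantCoeff (shiftP ξ g) = eval ξ g := by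
    have h2 : (constantCoeff : MvPolynomial σ K →+* K).comp (shiftP ξ).toRingHom = eval ξ := by
      apply MvPolynomial.ringHom_ext
      · intro r
        simp [shiftP]
      · intro i
        simp [shiftP]
    exact congrArg (fun f : MvPolynomial σ K →+* K => f g) h2
  rw [← h1, constantCoeff_eq]

lemma aeval_shift {A : Type} [CommRing A] [Algebra K A] (ξ : σ → K) (X' : σ → A)
    (g : MvPolynomial σ K) :
    aeval (fun i => X' i - algebraMap K A (ξ i)) (shiftP ξ g) = aeval X' g := by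
  have h2 : (aeval (fun i => X' i - algebraMap K A (ξ i)) : MvPolynomial σ K →ₐ[K] A).comp
      (shiftP ξ) = aeval X' := by
    apply MvPolynomial.algHom_ext
    intro i
    simp [shiftP]
  exact congrArg (fun f : MvPolynomial σ K →ₐ[K] A => f g) h2

lemma nat_abv (v : AbsoluteValue K ℝ) (n : ℕ) {c : ℝ} (hc : (n : ℝ) ≤ c) :
    v (n : K) ≤ cst v c := by
  have h1 := abv_sum_le v (Finset.range n) (fun _ => (1 : K)) (B := 1) zero_le_one
    (fun i _ => by rw [v.map_one]) (c := c) (by simpa using hc)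
  simpa using h1

end poly

section rec

variable {K : Type} [Field K] {σ : Type} [Fintype σ] [DecidableEq σ]

/-- the admissible exponents -/
def TT (σ : Type) [Fintype σ] [DecidableEq σ] (D0 N : ℕ) : Finset (σ → ℕ) :=
  (box σ N).filter (fun τ => ∃ i, N < τ i + D0)

lemma mem_box {N : ℕ} {β : σ → ℕ} : β ∈ box σ N ↔ ∀ i, β i ≤ N := by
  unfold Pool.Agent.Helper68.VN.box
  rw [Fintype.mem_piFinset]
  exact forall_congr' fun i => by rw [Finset.mem_range, Nat.lt_succ_iff]

/-- the quotients of the coefficients -/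
def uq (g : MvPolynomial σ K) (ξ : σ → K) (γ : σ →₀ ℕ) : K :=
  coeff γ (shiftP ξ g) / eval ξ g

/-- the claim for one exponent -/
def Cl (D0 N : ℕ) (g : MvPolynomial σ K) (ξ : σ → K) (k : ℕ) (β : σ → ℕ) : Prop :=
  ∃ ρ : (σ → ℕ) → K,
    (∀ (A : Type) [CommRing A] [Algebra K A] (X : σ → A), aeval X g = 0 →
      ∏ i, (X i - algebraMap K A (ξ i)) ^ β i = ∑ τ ∈ TT σ D0 N,
        algebraMap K A (ρ τ) * ∏ i, (X i - algebraMap K A (ξ i)) ^ τ i) ∧
    (∀ (v : AbsoluteValue K ℝ) (G : ℝ) (τ : σ → ℕ), 1 ≤ G → (∀ γ, v (uq g ξ γ) ≤ G) →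
      v (ρ τ) ≤ (cst v (((D0 + 1) ^ Fintype.card σ : ℕ) : ℝ) * G) ^ k) ∧
    ∀ (d : ℕ) (τ : σ → ℕ), (∀ γ, IsIntegral ℤ ((d : K) * uq g ξ γ)) →
      IsIntegral ℤ ((d : K) ^ k * ρ τ)

lemma one_le_D (D0 : ℕ) : (1 : ℝ) ≤ (((D0 + 1) ^ Fintype.card σ : ℕ) : ℝ) := by
  exact_mod_cast Nat.one_le_pow _ _ (Nat.succ_pos _)

lemma cl_top (D0 N : ℕ) (g : MvPolynomial σ K) (ξ : σ → K) (k : ℕ) {β : σ → ℕ}
    (hβ : β ∈ TT σ D0 N) : Cl D0 N g ξ k β := by
  refine ⟨fun τ => if τ = β then 1 else 0, ?_, ?_, ?_⟩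
  · intro A _ _ X _
    rw [Finset.sum_eq_single β]
    · simp
    · intro τ _ hτ
      simp [hτ]
    · intro h
      exact absurd hβ h
  · intro v G τ hG _
    have h1 : 1 ≤ (cst v (((D0 + 1) ^ Fintype.card σ : ℕ) : ℝ) * G) ^ k :=
      one_le_pow₀ (one_le_mul_of_one_le_of_one_le (one_le_cst v (one_le_D D0)) hG)
    show v (if τ = β then 1 else 0) ≤ _
    by_cases h : τ = β
    · rw [if_pos h, v.map_one]
      exact h1
    · rw [if_neg h, v.map_zero]
      linarith
  · intro d τ _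
    have hd : IsIntegral ℤ (d : K) := by
      simpa using (isIntegral_algebraMap (R := ℤ) (A := K) (x := (d : ℤ)))
    show IsIntegral ℤ ((d : K) ^ k * (if τ = β then 1 else 0))
    by_cases h : τ = β
    · rw [if_pos h, mul_one]
      exact hd.pow k
    · rw [if_neg h, mul_zero]
      exact isIntegral_zero

lemma card_supp (h : MvPolynomial σ K) (D0 : ℕ) (hh : ∀ i, degreeOf i h ≤ D0) :
    h.support.card ≤ (D0 + 1) ^ Fintype.card σ := by
  have h1 : h.support.card ≤ (Fintype.piFinset fun _ : σ => Finset.range (D0 + 1)).card := by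
    refine Finset.card_le_card_of_injOn (fun s i => s i) ?_ ?_
    · intro s hs
      rw [Finset.mem_coe, Fintype.mem_piFinset]
      intro i
      rw [Finset.mem_range]
      exact Nat.lt_succ_of_le ((monomial_le_degreeOf i hs).trans (hh i))
    · intro s _ t _ h
      exact DFunLike.coe_injective h
  rw [Fintype.card_piFinset] at h1
  simpa using h1

/-- the relation -/
lemma relat (g : MvPolynomial σ K) (ξ : σ → K) (h0 : eval ξ g ≠ 0) {A : Type} [CommRing A]
    [Algebra K A] (X : σ → A) (hX : aeval X g = 0) :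
    (1 : A) = ∑ γ ∈ (shiftP ξ g).support.erase 0,
      algebraMap K A (-uq g ξ γ) * ∏ i, (X i - algebraMap K A (ξ i)) ^ γ i := by
  have h1 : ∑ γ ∈ (shiftP ξ g).support, algebraMap K A (coeff γ (shiftP ξ g)) *
      ∏ i, (X i - algebraMap K A (ξ i)) ^ γ i = 0 := by
    have h2 := aeval_shift (A := A) ξ X g
    rw [hX, aeval_def, eval₂_eq'] at h2
    exact h2
  have hmem : (0 : σ →₀ ℕ) ∈ (shiftP ξ g).support := by
    rw [mem_support_iff, coeff_zero_shift]
    exact h0
  rw [← Finset.add_sum_erase _ _ hmem, coeff_zero_shift] at h1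
  have h3 : algebraMap K A (eval ξ g)⁻¹ * (algebraMap K A (eval ξ g) *
      ∏ i, (X i - algebraMap K A (ξ i)) ^ ((0 : σ →₀ ℕ) i) +
      ∑ γ ∈ (shiftP ξ g).support.erase 0, algebraMap K A (coeff γ (shiftP ξ g)) *
        ∏ i, (X i - algebraMap K A (ξ i)) ^ γ i) = 0 := by
    rw [h1, mul_zero]
  rw [mul_add, ← mul_assoc, ← map_mul, inv_mul_cancel₀ h0, map_one, one_mul] at h3
  have h4 : (∏ i, (X i - algebraMap K A (ξ i)) ^ ((0 : σ →₀ ℕ) i)) = 1 := by simp
  rw [h4, Finset.mul_sum] at h3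
  rw [← sub_eq_zero, ← h3, sub_eq_add_neg, ← Finset.sum_neg_distrib]
  congr 1
  refine Finset.sum_congr rfl fun γ _ => ?_
  unfold uq
  rw [map_neg, neg_mul, neg_neg, div_eq_mul_inv, map_mul]
  ring

lemma cl_all (D0 N : ℕ) (g : MvPolynomial σ K) (ξ : σ → K) (hg : ∀ i, degreeOf i g ≤ D0)
    (h0 : eval ξ g ≠ 0) (k : ℕ) : ∀ β ∈ box σ N, Fintype.card σ * N ≤ k + ∑ i, β i →
      Cl D0 N g ξ k β := by
  have hdeg : ∀ γ ∈ (shiftP ξ g).support, ∀ i, γ i ≤ D0 := fun γ hγ i =>
    (monomial_le_degreeOf i hγ).trans ((deg_shift ξ g i).trans (hg i))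
  -- the sum of the exponents
  have hsum : ∀ β ∈ box σ N, ∑ i, β i ≤ Fintype.card σ * N := by
    intro β hβ
    have h1 : ∑ i, β i ≤ ∑ _i : σ, N := Finset.sum_le_sum fun i _ => mem_box.1 hβ i
    simpa using h1
  have hpos : ∀ γ : σ →₀ ℕ, γ ≠ 0 → 1 ≤ ∑ i, γ i := by
    intro γ hγ
    by_contra hc
    have h1 : ∑ i, γ i = 0 := by omega
    rw [Finset.sum_eq_zero_iff] at h1
    exact hγ (Finsupp.ext fun i => h1 i (Finset.mem_univ i))
  have hbox : ∀ β ∈ box σ N, β ∉ TT σ D0 N → ∀ γ ∈ (shiftP ξ g).support.erase 0,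
      (fun i => β i + γ i) ∈ box σ N := by
    intro β hβ hT γ hγ
    rw [mem_box]
    intro i
    have h1 : β i + D0 ≤ N := by
      by_contra hc
      exact hT (Finset.mem_filter.2 ⟨hβ, i, by omega⟩)
    have h2 := hdeg γ (Finset.mem_of_mem_erase hγ) i
    omega
  induction k with
  | zero =>
    intro β hβ hk
    by_cases hT : β ∈ TT σ D0 N
    · exact cl_top D0 N g ξ 0 hT
    · have hemp : (shiftP ξ g).support.erase 0 = ∅ := by
        rw [Finset.eq_empty_iff_forall_notMem]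
        intro γ hγ
        have h1 := hsum _ (hbox β hβ hT γ hγ)
        have h2 := hpos γ (Finset.ne_of_mem_erase hγ)
        rw [Finset.sum_add_distrib] at h1
        omega
      refine ⟨fun _ => 0, ?_, ?_, ?_⟩
      · intro A _ _ X hX
        have h1 := relat g ξ h0 X hX
        rw [hemp, Finset.sum_empty] at h1
        have : Subsingleton A := subsingleton_of_zero_eq_one h1.symm
        exact Subsingleton.elim _ _
      · intro v G τ _ _
        simp
      · intro d τ _
        rw [mul_zero]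
        exact isIntegral_zero
  | succ k ih =>
    intro β hβ hk
    by_cases hT : β ∈ TT σ D0 N
    · exact cl_top D0 N g ξ (k + 1) hT
    · have hcl : ∀ γ : σ →₀ ℕ, ∃ ρ : (σ → ℕ) → K, γ ∈ (shiftP ξ g).support.erase 0 →
          (∀ (A : Type) [CommRing A] [Algebra K A] (X : σ → A), aeval X g = 0 →
            ∏ i, (X i - algebraMap K A (ξ i)) ^ (β i + γ i) = ∑ τ ∈ TT σ D0 N,
              algebraMap K A (ρ τ) * ∏ i, (X i - algebraMap K A (ξ i)) ^ τ i) ∧
          (∀ (v : AbsoluteValue K ℝ) (G : ℝ) (τ : σ → ℕ), 1 ≤ G → (∀ γ, v (uq g ξ γ) ≤ G) →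
            v (ρ τ) ≤ (cst v (((D0 + 1) ^ Fintype.card σ : ℕ) : ℝ) * G) ^ k) ∧
          ∀ (d : ℕ) (τ : σ → ℕ), (∀ γ, IsIntegral ℤ ((d : K) * uq g ξ γ)) →
            IsIntegral ℤ ((d : K) ^ k * ρ τ) := by
        intro γ
        by_cases hγ : γ ∈ (shiftP ξ g).support.erase 0
        · have h1 := ih (fun i => β i + γ i) (hbox β hβ hT γ hγ) (by
            have h2 := hpos γ (Finset.ne_of_mem_erase hγ)
            rw [Finset.sum_add_distrib]
            omega)
          obtain ⟨ρ, h2⟩ := h1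
          exact ⟨ρ, fun _ => h2⟩
        · exact ⟨fun _ => 0, fun h => absurd h hγ⟩
      choose ρ hρ using hcl
      refine ⟨fun τ => ∑ γ ∈ (shiftP ξ g).support.erase 0, -uq g ξ γ * ρ γ τ, ?_, ?_, ?_⟩
      · intro A _ _ X hX
        have h1 := relat g ξ h0 X hX
        calc ∏ i, (X i - algebraMap K A (ξ i)) ^ β i
            = (∏ i, (X i - algebraMap K A (ξ i)) ^ β i) * 1 := (mul_one _).symm
          _ = (∏ i, (X i - algebraMap K A (ξ i)) ^ β i) *
              ∑ γ ∈ (shiftP ξ g).support.erase 0,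
                algebraMap K A (-uq g ξ γ) * ∏ i, (X i - algebraMap K A (ξ i)) ^ γ i := by
              rw [← h1]
          _ = ∑ γ ∈ (shiftP ξ g).support.erase 0, algebraMap K A (-uq g ξ γ) *
                ∑ τ ∈ TT σ D0 N, algebraMap K A (ρ γ τ) *
                  ∏ i, (X i - algebraMap K A (ξ i)) ^ τ i := by
              rw [Finset.mul_sum]
              refine Finset.sum_congr rfl fun γ hγ => ?_
              rw [← (hρ γ hγ).1 A X hX]
              simp only [pow_add, Finset.prod_mul_distrib]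
              ring
          _ = ∑ τ ∈ TT σ D0 N,
                algebraMap K A (∑ γ ∈ (shiftP ξ g).support.erase 0, -uq g ξ γ * ρ γ τ) *
                  ∏ i, (X i - algebraMap K A (ξ i)) ^ τ i := by
              simp only [Finset.mul_sum]
              rw [Finset.sum_comm]
              refine Finset.sum_congr rfl fun τ _ => ?_
              rw [map_sum, Finset.sum_mul]
              refine Finset.sum_congr rfl fun γ _ => ?_
              rw [map_mul, mul_assoc]
      · intro v G τ hG hu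
        have hc1 : 1 ≤ cst v (((D0 + 1) ^ Fintype.card σ : ℕ) : ℝ) :=
          one_le_cst v (one_le_D D0)
        set c0 : ℝ := cst v (((D0 + 1) ^ Fintype.card σ : ℕ) : ℝ) with hc0
        have hB : 0 ≤ G * (c0 * G) ^ k := by positivity
        have hcard : (((shiftP ξ g).support.erase 0).card : ℝ) ≤
            (((D0 + 1) ^ Fintype.card σ : ℕ) : ℝ) := by
          exact_mod_cast (Finset.card_le_card (Finset.erase_subset _ _)).trans
            (card_supp _ D0 fun i => (deg_shift ξ g i).trans (hg i))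
        have h1 := abv_sum_le v ((shiftP ξ g).support.erase 0)
          (fun γ => -uq g ξ γ * ρ γ τ) hB (fun γ hγ => by
            rw [v.map_mul, v.map_neg]
            exact mul_le_mul (hu γ) ((hρ γ hγ).2.1 v G τ hG hu) (v.nonneg _) (by linarith)) hcard
        calc v (∑ γ ∈ (shiftP ξ g).support.erase 0, -uq g ξ γ * ρ γ τ)
            ≤ c0 * (G * (c0 * G) ^ k) := h1
          _ = (c0 * G) ^ (k + 1) := by ring
      · intro d τ hd
        rw [Finset.mul_sum]
        refine IsIntegral.sum _ fun γ hγ => ?_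
        have h1 := (hρ γ hγ).2.2 d τ hd
        have h2 : (d : K) ^ (k + 1) * (-uq g ξ γ * ρ γ τ) =
            -(((d : K) * uq g ξ γ) * ((d : K) ^ k * ρ γ τ)) := by ring
        rw [h2]
        exact ((hd γ).mul h1).neg

end rec

/-- Packet TN-HYPR. -/
theorem t_HYPR : Pool.Agent.Helper42.TN.HYPR := by
  intro D0 m
  refine ⟨(2 * (2 * (D0 + 1)) * (D0 + 1) ^ m) ^ m, Nat.one_le_pow _ _ (by positivity), ?_⟩
  intro K _ _ σ _ _ g t N hm hg ht h0
  obtain ⟨ξ, hξ⟩ : ∃ ξ : σ → K, ξ = fun i => (t i : K) := ⟨_, rfl⟩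
  have hξA : ∀ (A : Type) [CommRing A] [Algebra K A] (i : σ),
      algebraMap K A (ξ i) = (t i : A) := fun A _ _ i => by rw [hξ]; simp
  rw [← hξ] at h0 ⊢
  have hcl : ∀ β : σ → ℕ, ∃ ρ : (σ → ℕ) → K, β ∈ box σ N →
      (∀ (A : Type) [CommRing A] [Algebra K A] (X : σ → A), aeval X g = 0 →
        ∏ i, (X i - algebraMap K A (ξ i)) ^ β i = ∑ τ ∈ TT σ D0 N,
          algebraMap K A (ρ τ) * ∏ i, (X i - algebraMap K A (ξ i)) ^ τ i) ∧
      (∀ (v : AbsoluteValue K ℝ) (G : ℝ) (τ : σ → ℕ), 1 ≤ G → (∀ γ, v (uq g ξ γ) ≤ G) →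
        v (ρ τ) ≤ (cst v (((D0 + 1) ^ Fintype.card σ : ℕ) : ℝ) * G) ^ (m * N)) ∧
      ∀ (d : ℕ) (τ : σ → ℕ), (∀ γ, IsIntegral ℤ ((d : K) * uq g ξ γ)) →
        IsIntegral ℤ ((d : K) ^ (m * N) * ρ τ) := by
    intro β
    by_cases hβ : β ∈ box σ N
    · obtain ⟨ρ, h2⟩ := cl_all D0 N g ξ hg h0 (m * N) β hβ (by rw [hm]; omega)
      exact ⟨ρ, fun _ => h2⟩
    · exact ⟨fun _ => 0, fun h => absurd h hβ⟩
  choose ρ hρ using hcl
  -- the integers
  obtain ⟨nn, hnn⟩ : ∃ nn : (σ → ℕ) → (σ → ℕ) → ℕ, nn = fun s β =>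
      ∏ i, ((s i).choose (β i) * t i ^ (s i - β i)) := ⟨_, rfl⟩
  refine ⟨fun s τ => if s ∈ box σ N then ∑ β ∈ box σ N, (nn s β : K) * ρ β τ else 0, ?_, ?_, ?_⟩
  · intro A _ _ X hX s hs
    have h1 : ∀ i, X i ^ s i = ∑ b ∈ Finset.range (N + 1),
        (((s i).choose b * t i ^ (s i - b) : ℕ) : A) * (X i - (t i : A)) ^ b := by
      intro i
      have hsi : s i ≤ N := mem_box.1 hs i
      have h2 : X i ^ s i = ((X i - (t i : A)) + (t i : A)) ^ s i := by rw [sub_add_cancel]
      rw [h2, add_pow]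
      have h3 : ∑ b ∈ Finset.range (N + 1),
          (((s i).choose b * t i ^ (s i - b) : ℕ) : A) * (X i - (t i : A)) ^ b =
          ∑ b ∈ Finset.range (s i + 1),
          (((s i).choose b * t i ^ (s i - b) : ℕ) : A) * (X i - (t i : A)) ^ b := by
        symm
        apply Finset.sum_subset
        · intro b hb
          rw [Finset.mem_range] at hb ⊢
          omega
        · intro b _ hb
          rw [Finset.mem_range] at hb
          rw [Nat.choose_eq_zero_of_lt (by omega)]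
          simp
      rw [h3]
      refine Finset.sum_congr rfl fun b _ => ?_
      push_cast
      ring
    have h2 : ∏ i, X i ^ s i = ∑ β ∈ box σ N, (nn s β : A) * ∏ i, (X i - (t i : A)) ^ β i := by
      rw [Finset.prod_congr rfl (fun i _ => h1 i), Finset.prod_univ_sum]
      refine Finset.sum_congr rfl fun β _ => ?_
      rw [Finset.prod_mul_distrib, hnn]
      push_cast
      rfl
    rw [h2]
    show _ = ∑ τ ∈ TT σ D0 N, _
    have h3 : ∀ β ∈ box σ N, ∏ i, (X i - (t i : A)) ^ β i = ∑ τ ∈ TT σ D0 N,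
        algebraMap K A (ρ β τ) * ∏ i, (X i - (t i : A)) ^ τ i := by
      intro β hβ
      have h4 := (hρ β hβ).1 A X hX
      simpa only [hξA] using h4
    rw [Finset.sum_congr rfl (fun β hβ => by rw [h3 β hβ])]
    simp only [Finset.mul_sum]
    rw [Finset.sum_comm]
    refine Finset.sum_congr rfl fun τ _ => ?_
    rw [if_pos hs, map_sum, Finset.sum_mul]
    refine Finset.sum_congr rfl fun β _ => ?_
    rw [map_mul, map_natCast, mul_assoc]
  · intro v G s τ hG hu
    have hD : (1 : ℝ) ≤ (D0 : ℝ) + 1 := by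
      have : (0 : ℝ) ≤ D0 := Nat.cast_nonneg _
      linarith
    have hc1 : (1 : ℝ) ≤ (((2 * (2 * (D0 + 1)) * (D0 + 1) ^ m) ^ m : ℕ) : ℝ) := by
      exact_mod_cast Nat.one_le_pow _ _ (by positivity)
    have hRHS : 0 ≤ (cst v (((2 * (2 * (D0 + 1)) * (D0 + 1) ^ m) ^ m : ℕ) : ℝ) * G ^ m) ^ (N + 1) := by
      have := cst_pos v hc1
      positivity
    by_cases hs : s ∈ box σ N
    · simp only [if_pos hs]
      -- bound of one term
      set c0 : ℝ := cst v (((D0 + 1) ^ Fintype.card σ : ℕ) : ℝ) with hc0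
      have hc01 : 1 ≤ c0 := one_le_cst v (one_le_D D0)
      have hnb : ∀ β ∈ box σ N, (nn s β : ℝ) ≤ (((2 * (D0 + 1)) ^ (N * m) : ℕ) : ℝ) := by
        intro β _
        have h1 : nn s β ≤ ∏ _i : σ, (2 * (D0 + 1)) ^ N := by
          rw [hnn]
          refine Finset.prod_le_prod' fun i _ => ?_
          have hsi : s i ≤ N := mem_box.1 hs i
          rw [mul_pow]
          refine Nat.mul_le_mul ?_ ?_
          · exact (Nat.choose_le_two_pow _ _).trans (Nat.pow_le_pow_right (by norm_num) hsi)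
          · calc t i ^ (s i - β i) ≤ (D0 + 1) ^ (s i - β i) :=
                Nat.pow_le_pow_left ((ht i).trans (Nat.le_succ _)) _
              _ ≤ (D0 + 1) ^ N := Nat.pow_le_pow_right (Nat.succ_pos _) (by omega)
        rw [Finset.prod_const, Finset.card_univ, hm, ← pow_mul] at h1
        exact_mod_cast h1
      have hB : 0 ≤ cst v (((2 * (D0 + 1)) ^ (N * m) : ℕ) : ℝ) * (c0 * G) ^ (m * N) := by
        have h1 : (1 : ℝ) ≤ (((2 * (D0 + 1)) ^ (N * m) : ℕ) : ℝ) := by
          exact_mod_cast Nat.one_le_pow _ _ (by positivity)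
        have := cst_pos v h1
        positivity
      have hcard : ((box σ N).card : ℝ) ≤ (((N + 1) ^ m : ℕ) : ℝ) := by
        unfold Pool.Agent.Helper68.VN.box
        rw [Fintype.card_piFinset]
        simp [hm]
      have h1 := abv_sum_le v (box σ N) (fun β => (nn s β : K) * ρ β τ) hB (fun β hβ => by
        rw [v.map_mul]
        exact mul_le_mul (nat_abv v _ (hnb β hβ)) ((hρ β hβ).2.1 v G τ hG hu) (v.nonneg _)
          (by
            have h1 : (1 : ℝ) ≤ (((2 * (D0 + 1)) ^ (N * m) : ℕ) : ℝ) := by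
              exact_mod_cast Nat.one_le_pow _ _ (by positivity)
            exact (cst_pos v h1).le)) hcard
      refine h1.trans ?_
      rw [mul_pow c0 G, hc0, ← cst_pow]
      have h2 : G ^ (m * N) ≤ (G ^ m) ^ (N + 1) := by
        rw [← pow_mul]
        exact pow_le_pow_right₀ hG (by rw [Nat.mul_succ]; omega)
      have h3 : cst v (((N + 1) ^ m : ℕ) : ℝ) * (cst v (((2 * (D0 + 1)) ^ (N * m) : ℕ) : ℝ) *
          cst v ((((D0 + 1) ^ Fintype.card σ : ℕ) : ℝ) ^ (m * N))) ≤
          cst v (((2 * (2 * (D0 + 1)) * (D0 + 1) ^ m) ^ m : ℕ) : ℝ) ^ (N + 1) := by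
        rw [← cst_mul, ← cst_mul, ← cst_pow]
        apply cst_mono
        have h4 : (N + 1) ^ m * ((2 * (D0 + 1)) ^ (N * m) *
            ((D0 + 1) ^ Fintype.card σ) ^ (m * N)) ≤
            ((2 * (2 * (D0 + 1)) * (D0 + 1) ^ m) ^ m) ^ (N + 1) := by
          rw [hm]
          have e1 : (N + 1) ^ m ≤ (2 ^ m) ^ (N + 1) := by
            rw [← pow_mul, mul_comm m, pow_mul]
            exact Nat.pow_le_pow_left Nat.lt_two_pow_self.le _
          have e2 : (2 * (D0 + 1)) ^ (N * m) ≤ ((2 * (D0 + 1)) ^ m) ^ (N + 1) := by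
            rw [← pow_mul]
            exact Nat.pow_le_pow_right (by positivity) (by nlinarith)
          have e3 : ((D0 + 1) ^ m) ^ (m * N) ≤ (((D0 + 1) ^ m) ^ m) ^ (N + 1) := by
            rw [← pow_mul ((D0 + 1) ^ m) m]
            exact Nat.pow_le_pow_right (by positivity) (by nlinarith)
          calc (N + 1) ^ m * ((2 * (D0 + 1)) ^ (N * m) * ((D0 + 1) ^ m) ^ (m * N))
              ≤ (2 ^ m) ^ (N + 1) * (((2 * (D0 + 1)) ^ m) ^ (N + 1) *
                (((D0 + 1) ^ m) ^ m) ^ (N + 1)) :=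
                Nat.mul_le_mul e1 (Nat.mul_le_mul e2 e3)
            _ = ((2 * (2 * (D0 + 1)) * (D0 + 1) ^ m) ^ m) ^ (N + 1) := by
                rw [← mul_pow, ← mul_pow, ← mul_pow, ← mul_pow,
                  mul_assoc 2 (2 * (D0 + 1)) ((D0 + 1) ^ m)]
        have h5 : (((N + 1) ^ m * ((2 * (D0 + 1)) ^ (N * m) *
            ((D0 + 1) ^ Fintype.card σ) ^ (m * N)) : ℕ) : ℝ) ≤
            ((((2 * (2 * (D0 + 1)) * (D0 + 1) ^ m) ^ m) ^ (N + 1) : ℕ) : ℝ) := by
          exact_mod_cast h4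
        push_cast at h5 ⊢
        exact h5
      have h1' : 0 ≤ cst v (((N + 1) ^ m : ℕ) : ℝ) * (cst v (((2 * (D0 + 1)) ^ (N * m) : ℕ) : ℝ) *
          cst v ((((D0 + 1) ^ Fintype.card σ : ℕ) : ℝ) ^ (m * N))) := by
        have a1 : (1 : ℝ) ≤ (((N + 1) ^ m : ℕ) : ℝ) := by
          exact_mod_cast Nat.one_le_pow _ _ (by positivity)
        have a2 : (1 : ℝ) ≤ (((2 * (D0 + 1)) ^ (N * m) : ℕ) : ℝ) := by
          exact_mod_cast Nat.one_le_pow _ _ (by positivity)
        have a3 : (1 : ℝ) ≤ (((D0 + 1) ^ Fintype.card σ : ℕ) : ℝ) ^ (m * N) :=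
          one_le_pow₀ (one_le_D D0)
        have := cst_pos v a1
        have := cst_pos v a2
        have := cst_pos v a3
        positivity
      calc cst v (((N + 1) ^ m : ℕ) : ℝ) * (cst v (((2 * (D0 + 1)) ^ (N * m) : ℕ) : ℝ) *
            (cst v ((((D0 + 1) ^ Fintype.card σ : ℕ) : ℝ) ^ (m * N)) * G ^ (m * N)))
          = (cst v (((N + 1) ^ m : ℕ) : ℝ) * (cst v (((2 * (D0 + 1)) ^ (N * m) : ℕ) : ℝ) *
            cst v ((((D0 + 1) ^ Fintype.card σ : ℕ) : ℝ) ^ (m * N)))) * G ^ (m * N) := by ring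
        _ ≤ cst v (((2 * (2 * (D0 + 1)) * (D0 + 1) ^ m) ^ m : ℕ) : ℝ) ^ (N + 1) *
            (G ^ m) ^ (N + 1) := by
            refine mul_le_mul h3 h2 (by positivity) (h1'.trans h3)
        _ = _ := by rw [← mul_pow]
    · simp only [if_neg hs]
      rw [v.map_zero]
      exact hRHS
  · intro d s τ hd
    have hdi : IsIntegral ℤ (d : K) := by
      simpa using (isIntegral_algebraMap (R := ℤ) (A := K) (x := (d : ℤ)))
    by_cases hs : s ∈ box σ N
    · simp only [if_pos hs]
      rw [Finset.mul_sum]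
      refine IsIntegral.sum _ fun β hβ => ?_
      have h1 := (hρ β hβ).2.2 d τ hd
      have hni : IsIntegral ℤ ((nn s β : ℕ) : K) := by
        simpa using (isIntegral_algebraMap (R := ℤ) (A := K) (x := ((nn s β : ℕ) : ℤ)))
      have h2 : (d : K) ^ (m * (N + 1)) * ((nn s β : K) * ρ β τ) =
          ((d : K) ^ m * (nn s β : K)) * ((d : K) ^ (m * N) * ρ β τ) := by
        rw [Nat.mul_succ, pow_add]
        ring
      rw [h2]
      exact ((hdi.pow m).mul hni).mul h1
    · simp only [if_neg hs]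
      rw [mul_zero]
      exact isIntegral_zero

end

end Pool.Agent.Helper4.TN
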