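import Pool.Agent.Helper92.TN.GoalsD

/-!
# Project TN (MP_a41896_nt), packet TN-INTP: products of roots
-/

set_option autoImplicit false

namespace Pool.Agent.Helper4.TN.INTP

open Polynomial

/-- A quotient by a linear factor has integral coefficients. -/
theorem quot {R A : Type} [CommRing R] [Field A] [Algebra R A] (q' : A[X]) (ρ : A)
    (h : ∀ l, IsIntegral R (((X - C ρ) * q').coeff l)) (i : ℕ) : IsIntegral R (q'.coeff i) := by
  obtain ⟨a, ha⟩ : ∃ a : ℕ → A, a = fun l => ((X - C ρ) * q').coeff l := ⟨_, rfl⟩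
  obtain ⟨b, hb⟩ : ∃ b : ℕ → A, b = fun l => q'.coeff l := ⟨_, rfl⟩
  have haI : ∀ l, a l ∈ integralClosure R A := fun l => by rw [ha]; exact h l
  have hrec : ∀ l, a (l + 1) = b l - ρ * b (l + 1) := fun l => by
    rw [ha, hb]
    simp only [sub_mul, coeff_sub, coeff_X_mul, coeff_C_mul]
  have hrec0 : a 0 = -(ρ * b 0) := by
    rw [ha, hb]
    simp only [sub_mul, coeff_sub, coeff_C_mul]
    simp
  set n : ℕ := q'.natDegree + 1 with hn
  have hbn : ∀ l, n ≤ l → b l = 0 := fun l hl => by
    rw [hb]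
    exact coeff_eq_zero_of_natDegree_lt (by omega)
  set Λ : Submodule (integralClosure R A) A :=
    Submodule.span (integralClosure R A) ((fun j : ℕ => ρ ^ j) '' (Finset.range n : Set ℕ)) with hΛ
  have hgen : ∀ l j : ℕ, j < n → a l * ρ ^ j ∈ Λ := by
    intro l j hj
    have h1 : ρ ^ j ∈ Λ := Submodule.subset_span ⟨j, by simpa using hj, rfl⟩
    exact Λ.smul_mem (⟨a l, haI l⟩ : integralClosure R A) h1
  have hA : ∀ k i, n ≤ i + k → ∀ j ≤ i, b i * ρ ^ j ∈ Λ := by
    intro k
    induction k with
    | zero =>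
      intro i hi j _
      rw [hbn i (by omega), zero_mul]
      exact Λ.zero_mem
    | succ k ih =>
      intro i hi j hj
      by_cases hik : n ≤ i + k
      · exact ih i hik j hj
      · have h1 := ih (i + 1) (by omega) (j + 1) (by omega)
        have h2 := hgen (i + 1) j (by omega)
        have h3 : b i * ρ ^ j = a (i + 1) * ρ ^ j + b (i + 1) * ρ ^ (j + 1) := by
          rw [hrec]
          ring
        rw [h3]
        exact Λ.add_mem h2 h1
  have hB : ∀ i j, i < j → j < n → b i * ρ ^ j ∈ Λ := by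
    intro i
    induction i with
    | zero =>
      intro j hj hjn
      obtain ⟨j', rfl⟩ : ∃ j', j = j' + 1 := ⟨j - 1, by omega⟩
      have h3 : b 0 * ρ ^ (j' + 1) = -(a 0 * ρ ^ j') := by
        rw [hrec0]
        ring
      rw [h3]
      exact Λ.neg_mem (hgen 0 j' (by omega))
    | succ i ih =>
      intro j hj hjn
      obtain ⟨j', rfl⟩ : ∃ j', j = j' + 1 := ⟨j - 1, by omega⟩
      have h3 : b (i + 1) * ρ ^ (j' + 1) = b i * ρ ^ j' - a (i + 1) * ρ ^ j' := by
        rw [hrec]
        ring
      rw [h3]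
      exact Λ.sub_mem (ih j' (by omega) (by omega)) (hgen (i + 1) j' (by omega))
  have hne : Λ ≠ ⊥ := by
    intro h0
    have h1 : (1 : A) ∈ Λ := by
      have : (1 : A) = ρ ^ 0 := (pow_zero ρ).symm
      rw [this]
      exact Submodule.subset_span ⟨0, by simp [hn], rfl⟩
    rw [h0, Submodule.mem_bot] at h1
    exact one_ne_zero h1
  have hfg : Λ.FG := by
    classical
    refine ⟨(Finset.range n).image fun j : ℕ => ρ ^ j, ?_⟩
    rw [hΛ, Finset.coe_image]
  have hstab : ∀ x ∈ Λ, b i • x ∈ Λ := by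
    intro x hx
    induction hx using Submodule.span_induction with
    | mem x hx =>
      obtain ⟨j, hj, rfl⟩ := hx
      have hj' : j < n := by simpa using hj
      rw [smul_eq_mul]
      by_cases hij : j ≤ i
      · exact hA n i (by omega) j hij
      · exact hB i j (by omega) hj'
    | zero =>
      rw [smul_zero]
      exact Λ.zero_mem
    | add x y _ _ hx hy =>
      rw [smul_add]
      exact Λ.add_mem hx hy
    | smul c x _ hx =>
      rw [smul_comm]
      exact Λ.smul_mem c hx
  have h1 : IsIntegral (integralClosure R A) (b i) :=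
    isIntegral_of_smul_mem_submodule Λ hne hfg (b i) hstab
  have h2 : IsIntegral R (b i) := isIntegral_trans _ h1
  rw [hb] at h2
  exact h2

/-- Packet TN-INTP. -/
theorem t : Pool.Agent.Helper92.TN.INTP := by
  classical
  intro R A _ _ _ Θ _ lc ρ h S
  have key : ∀ T : Finset Θ, ∀ l,
      IsIntegral R ((C lc * ∏ θ ∈ Tᶜ, (X - C (ρ θ))).coeff l) := by
    intro T
    induction T using Finset.induction_on with
    | empty =>
      intro l
      rw [Finset.compl_empty]
      exact h l
    | insert x T hx ih =>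
      have h1 : C lc * ∏ θ ∈ Tᶜ, (X - C (ρ θ)) =
          (X - C (ρ x)) * (C lc * ∏ θ ∈ (insert x T)ᶜ, (X - C (ρ θ))) := by
        have h2 : Tᶜ = insert x (insert x T)ᶜ := by
          ext y
          simp only [Finset.mem_compl, Finset.mem_insert, not_or]
          by_cases hy : y = x
          · subst hy
            simp [hx]
          · simp [hy]
        rw [h2, Finset.prod_insert (by simp)]
        ring
      intro l
      exact quot _ (ρ x) (fun l => by rw [← h1]; exact ih l) l
  have h1 := key Sᶜ 0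
  rw [compl_compl, mul_coeff_zero, coeff_C_zero, coeff_zero_eq_eval_zero, eval_prod] at h1
  simp only [eval_sub, eval_X, eval_C, zero_sub] at h1
  rw [Finset.prod_neg] at h1
  have h2 : IsIntegral R ((-1 : A) ^ S.card) := (isIntegral_one.neg).pow _
  have h3 := h2.mul h1
  have h4 : (-1 : A) ^ S.card * (lc * ((-1) ^ S.card * ∏ θ ∈ S, ρ θ)) = lc * ∏ θ ∈ S, ρ θ := by
    have h5 : (-1 : A) ^ S.card * (-1) ^ S.card = 1 := by
      rw [← mul_pow]
      simp
    calc (-1 : A) ^ S.card * (lc * ((-1) ^ S.card * ∏ θ ∈ S, ρ θ))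
        = ((-1 : A) ^ S.card * (-1) ^ S.card) * (lc * ∏ θ ∈ S, ρ θ) := by ring
      _ = lc * ∏ θ ∈ S, ρ θ := by rw [h5, one_mul]
  rwa [h4] at h3

end Pool.Agent.Helper4.TN.INTP
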