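import Pool.Agent.Helper42.TN.GoalsT
import Pool.Agent.Helper12.PM.CHW

/-!
# Project TN (MP_a41896_nt), packet TN-CENL
-/

set_option autoImplicit false

open MvPolynomial

namespace Pool.Agent.Helper4.TN

open WeierstrassCurve Height
open Pool.Agent.Helper29.BL
open Pool.Agent.Helper19.PM
open Pool.Agent.Helper42.TN

noncomputable section

/-- Packet TN-CENL. -/
theorem t_CENL : Pool.Agent.Helper42.TN.CENL := by
  intro K _ _ σ _ _ D0
  have hnn : ∀ a : K, 0 ≤ logHeight₁ a := fun a => by
    rw [← PS_log_Mv]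
    exact PS_nonneg (FS_log_Mv a) fun v => Real.log_nonneg (one_le_Mv v a)
  refine ⟨∑ t ∈ Finset.range (D0 + 1), logHeight₁ (t : K), Finset.sum_nonneg fun t _ => hnn _, ?_⟩
  intro i1 t x ht
  constructor
  · intro hx
    have he : ∀ k : Unit, eval x (cenH i1 (t : K) k) = x i1 - t := fun k => by
      unfold cenH
      simp
    have h0 : x i1 - t ≠ 0 := sub_ne_zero.2 hx
    have hex : ∃ k, eval x (cenH i1 (t : K) k) ≠ 0 := ⟨(), by rw [he]; exact h0⟩
    refine ⟨?_, hex⟩
    obtain ⟨hF, hρ⟩ := Pool.Agent.Helper12.PM.t_CHW K σ Unit (wH i1) (cenH i1 (t : K)) x hex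
    have hle : ∀ v : AbsoluteValue K ℝ, Real.log (Mv v (x i1)) - Real.log (v (x i1 - t)) ≤
        -Real.log (rhoW (wH i1) (cenH i1 (t : K)) v x) := by
      intro v
      have hM : ∏ i, Mv v (x i) ^ wH i1 () i = Mv v (x i1) := by
        rw [Finset.prod_eq_single i1]
        · unfold wH
          rw [if_pos rfl, pow_one]
        · intro i _ hi
          unfold wH
          rw [if_neg hi, pow_zero]
        · intro h
          exact absurd (Finset.mem_univ i1) h
      have hsup : (⨆ j : Unit, v (eval x (cenH i1 (t : K) j)) /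
          ∏ i, Mv v (x i) ^ wH i1 j i) = v (x i1 - t) / Mv v (x i1) := by
        rw [ciSup_unique]
        show v (eval x (cenH i1 (t : K) ())) / ∏ i, Mv v (x i) ^ wH i1 () i = _
        rw [he, hM]
      have h1 : rhoW (wH i1) (cenH i1 (t : K)) v x ≤ v (x i1 - t) / Mv v (x i1) := by
        unfold rhoW
        rw [hsup]
        exact min_le_right _ _
      have h2 := Real.log_le_log (hρ v).1 h1
      rw [Real.log_div (v.pos h0).ne' (Mv_pos v _).ne'] at h2
      linarith
    have h3 := PS_mono ((FS_log_Mv (x i1)).sub (FS_log h0)) hF.neg hle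
    rw [PS_sub (FS_log_Mv (x i1)) (FS_log h0), PS_log_Mv, PS_log h0, sub_zero] at h3
    exact h3
  · exact Finset.single_le_sum (f := fun t : ℕ => logHeight₁ (t : K)) (fun _ _ => hnn _)
      (Finset.mem_range.2 (Nat.lt_succ_of_le ht))

end

end Pool.Agent.Helper4.TN
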